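import Pool.Agent.W76.MO.Final

/-!
# MP_a187e6_nt: an MO function whose partial sums decay faster than `x^(-1/2)`
-/

set_option autoImplicit false

namespace Pool.Agent.Results.MP_a187e6_nt.BeyondSquareRoot

open Filter Topology Finset Asymptotics

/-- `f` (only its values at `n ≥ 1` matter) is an MO function: multiplicative, with
`∑ f(n)` convergent to `0`, and `∑_k f(p ^ k)` convergent to a nonzero value for every prime `p` -/
structure IsMO (f : ℕ → ℂ) : Prop where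
  one : f 1 = 1
  mul : ∀ m n : ℕ, 1 ≤ m → 1 ≤ n → Nat.Coprime m n → f (m * n) = f m * f n
  sum_zero : Tendsto (fun N : ℕ => ∑ n ∈ Icc 1 N, f n) atTop (𝓝 0)
  local_ne_zero : ∀ p : ℕ, p.Prime →
    ∃ L : ℂ, L ≠ 0 ∧ Tendsto (fun K : ℕ => ∑ k ∈ range K, f (p ^ k)) atTop (𝓝 L)

/-- the partial sum `S_f(x) = ∑_{n ≤ x} f(n)` -/
noncomputable def partialSum (f : ℕ → ℂ) (x : ℝ) : ℂ := ∑ n ∈ Icc 1 ⌊x⌋₊, f n

lemma transfer (h : Pool.Agent.W76.MO.Concl) : ∃ f : ℕ → ℂ, IsMO f ∧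
    (∃ c C : ℝ, 0 < c ∧ ∀ x : ℝ, 1 ≤ x → ‖partialSum f x‖ ≤ C * x ^ (-(1 / 2 : ℝ) - c)) ∧
    (partialSum f) =o[atTop] (fun x : ℝ => x ^ (-(1 / 2 : ℝ))) := by
  obtain ⟨f, ⟨h1, h2, h3, h4⟩, c, C, hc, hC, hb⟩ := h
  have hb' : ∀ x : ℝ, 1 ≤ x → ‖partialSum f x‖ ≤ C * x ^ (-(1 / 2 : ℝ) - c) := hb
  refine ⟨f, ⟨h1, h2, h3, h4⟩, ⟨c, C, hc, hb'⟩, ?_⟩
  have e1 : (partialSum f) =O[atTop] (fun x : ℝ => x ^ (-(1 / 2 : ℝ) - c)) := by
    refine IsBigO.of_bound C ?_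
    filter_upwards [eventually_ge_atTop (1 : ℝ)] with x hx
    rw [Real.norm_of_nonneg (by positivity)]
    exact hb' x hx
  refine e1.trans_isLittleO ?_
  rw [isLittleO_iff_tendsto']
  · have h5 : Tendsto (fun x : ℝ => x ^ (-c)) atTop (𝓝 0) := tendsto_rpow_neg_atTop hc
    refine h5.congr' ?_
    filter_upwards [eventually_gt_atTop (0 : ℝ)] with x hx
    rw [← Real.rpow_sub hx]
    congr 1
    ring
  · filter_upwards [eventually_gt_atTop (0 : ℝ)] with x hx h0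
    exact absurd h0 (by positivity)

/-- There is an MO function `f` and there are constants `c > 0`, `C` with
`|S_f(x)| ≤ C x^(-1/2-c)` for every `x ≥ 1`; in particular `S_f(x) = o(1/√x)`, so the
statement that `S_f(x) = Ω(1/√x)` for every MO function is false. -/
theorem result : ∃ f : ℕ → ℂ, IsMO f ∧
    (∃ c C : ℝ, 0 < c ∧ ∀ x : ℝ, 1 ≤ x → ‖partialSum f x‖ ≤ C * x ^ (-(1 / 2 : ℝ) - c)) ∧
    (partialSum f) =o[atTop] (fun x : ℝ => x ^ (-(1 / 2 : ℝ))) :=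
  transfer Pool.Agent.W76.MO.concl

end Pool.Agent.Results.MP_a187e6_nt.BeyondSquareRoot
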